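import Pool.Agent.Q322.DS.Gad

/-!
# The reduction from clique to dual separators
-/

namespace Pool.Agent.Q322.DS

open Pool.Agent.NPC Pool.Agent.H633R2

section

variable {Λ : Type}

/-- The matrix of a color function on a list of labels. -/
def matC (vs : List Λ) (col : Λ → Λ → ℕ) : List (List ℕ) :=
  vs.map fun u => vs.map fun w => col u w

theorem length_matC (vs : List Λ) (col : Λ → Λ → ℕ) : (matC vs col).length = vs.length := by
  simp [matC]

theorem ent_matC (vs : List Λ) (col : Λ → Λ → ℕ) {i j : ℕ} (hi : i < vs.length)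
    (hj : j < vs.length) : ent (matC vs col) i j = col vs[i] vs[j] := by
  simp [ent, matC, List.getD_eq_getElem?_getD, hi, hj]

/-- The label of a vertex. -/
def labC (vs : List Λ) (col : Λ → Λ → ℕ) (i : Fin (matC vs col).length) : Λ :=
  vs[i.1]'(i.2.trans_eq (length_matC vs col))

theorem labC_injective {vs : List Λ} (h : vs.Nodup) (col : Λ → Λ → ℕ) :
    Function.Injective (labC vs col) := by
  intro i j hij
  exact Fin.ext ((List.Nodup.getElem_inj_iff h).1 hij)

theorem exists_labC {vs : List Λ} (col : Λ → Λ → ℕ) {x : Λ} (hx : x ∈ vs) :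
    ∃ i, labC vs col i = x := by
  obtain ⟨i, hi, h⟩ := List.getElem_of_mem hx
  exact ⟨⟨i, by rw [length_matC]; exact hi⟩, h⟩

theorem adj_matC {vs : List Λ} {col : Λ → Λ → ℕ} (hcol : ∀ x y, col x y = col y x) (c : ℕ)
    (i j : Fin (matC vs col).length) :
    (colG (matC vs col) c).Adj i j ↔ i ≠ j ∧ col (labC vs col i) (labC vs col j) = c := by
  have key : ∀ i j : Fin (matC vs col).length,
      ent (matC vs col) i j = col (labC vs col i) (labC vs col j) := by
    intro i j
    exact ent_matC vs col _ _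
  change i ≠ j ∧ ent (matC vs col) (min i j : Fin _) (max i j : Fin _) = c ↔ _
  rw [key]
  rcases le_total i j with h | h
  · rw [min_eq_left h, max_eq_right h]
  · rw [min_eq_right h, max_eq_left h, hcol]

end

/-- the color of a pair -/
def col (M : List (List Bool)) (k : ℕ) (x y : Lb) : ℕ :=
  if (x, y) ∈ E M k 0 ∨ (y, x) ∈ E M k 0 then 1 else
    if (x, y) ∈ E M k 1 ∨ (y, x) ∈ E M k 1 then 2 else 0

theorem col_symm (M : List (List Bool)) (k : ℕ) (x y : Lb) : col M k x y = col M k y x := by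
  unfold col
  simp only [or_comm]

/-- the kinds of the ends of the edges -/
theorem kinds {M : List (List Bool)} {k c : ℕ} {x y : Lb} (h : (x, y) ∈ E M k c) :
    (x.1 = 2 + c ∨ y.1 = 2 + c) ∧ (x.1 = 0 ∨ x.1 = 1 ∨ x.1 = 2 + c ∨ x.1 = 4 + c) ∧
      (y.1 = 0 ∨ y.1 = 1 ∨ y.1 = 2 + c ∨ y.1 = 4 + c) := by
  have hC : ∀ i j w, (C M c i j w).1 = 1 ∨ (C M c i j w).1 = 4 + c := by
    intro i j w
    unfold C
    split_ifs
    · exact Or.inl rfl
    · exact Or.inr rfl
  have hD : ∀ i j w, (D c i j w).1 = 2 + c := fun _ _ _ => rfl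
  rw [mem_E] at h
  obtain ⟨i, hi, j, hj, h | h | ⟨a, ha, h | h⟩ | ⟨m, hm, q, hq, h⟩⟩ := h
  · obtain ⟨rfl, rfl⟩ := Prod.mk.inj h
    have := hD i j 0
    have e : sv.1 = 0 := rfl
    omega
  · obtain ⟨rfl, rfl⟩ := Prod.mk.inj h
    have := hD i j (M.length * M.length)
    have e : tv.1 = 0 := rfl
    omega
  · obtain ⟨rfl, rfl⟩ := Prod.mk.inj h
    have := hD i j a
    have := hC i j a
    omega
  · obtain ⟨rfl, rfl⟩ := Prod.mk.inj h
    have := hD i j (a + 1)
    have := hC i j a
    omega
  · obtain ⟨rfl, rfl⟩ := Prod.mk.inj h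
    have h1 := hD i j (q * M.length)
    have h2 := hD m j (q * M.length)
    have h3 := hD i m (q * M.length)
    split_ifs <;> omega

theorem adj_col (M : List (List Bool)) (k : ℕ) (x y : Lb) :
    ((Gr M k 0).Adj x y ↔ x ≠ y ∧ col M k x y = 1) ∧
      ((Gr M k 1).Adj x y ↔ x ≠ y ∧ col M k x y = 2) := by
  unfold Gr col
  rw [SimpleGraph.fromRel_adj, SimpleGraph.fromRel_adj]
  constructor
  · refine and_congr_right' ?_
    split_ifs with h1 h2
    · simp [h1]
    · simp [h1]
    · simp [h1]
  · refine and_congr_right' ?_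
    split_ifs with h1 h2
    · simp only [OfNat.one_ne_ofNat, iff_false]
      intro h2
      have kk : ∀ {a b : Lb}, (a, b) ∈ E M k 0 → ((a, b) ∈ E M k 1 ∨ (b, a) ∈ E M k 1) →
          False := by
        intro a b h1 h2
        have a1 := kinds h1
        rcases h2 with h2 | h2
        · have a2 := kinds h2; omega
        · have a2 := kinds h2; omega
      rcases h1 with h1 | h1
      · exact kk h1 h2
      · exact kk h1 h2.symm
    · simp [h2]
    · simp [h2]

/-- a bound for all the coordinates -/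
def bd (M : List (List Bool)) (k : ℕ) : ℕ := M.length * M.length + k + 8

/-- all labels with small coordinates -/
def allLb (R : ℕ) : List Lb :=
  List.range R ×ˢ (List.range R ×ˢ (List.range R ×ˢ (List.range R ×ˢ List.range R)))

theorem mem_allLb (R a b c d e : ℕ) : ((a, b, c, d, e) : Lb) ∈ allLb R ↔
    a < R ∧ b < R ∧ c < R ∧ d < R ∧ e < R := by
  simp [allLb, List.mem_product]

theorem nodup_allLb (R : ℕ) : (allLb R).Nodup := by
  unfold allLb
  exact List.nodup_range.product (List.nodup_range.product (List.nodup_range.product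
    (List.nodup_range.product List.nodup_range)))

/-- the list of the vertices; it begins with the two terminals -/
def vs (R : ℕ) : List Lb :=
  sv :: tv :: (allLb R).filter fun x => decide (x ≠ sv) && decide (x ≠ tv)

theorem nodup_vs (R : ℕ) : (vs R).Nodup := by
  unfold vs
  rw [List.nodup_cons, List.nodup_cons]
  refine ⟨?_, ?_, (nodup_allLb R).filter _⟩
  · simp [sv, tv]
  · simp

theorem mem_vs {R : ℕ} {x : Lb} (h : x ∈ allLb R) : x ∈ vs R := by
  unfold vs
  by_cases h1 : x = sv
  · simp [h1]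
  · by_cases h2 : x = tv
    · simp [h2]
    · simp [h, h1, h2]

theorem mem_bd {M : List (List Bool)} {k c : ℕ} (hc : c < 2) {x y : Lb} (h : (x, y) ∈ E M k c) :
    x ∈ allLb (bd M k) ∧ y ∈ allLb (bd M k) := by
  have hC : ∀ i < k, ∀ j < k, ∀ w < M.length * M.length, C M c i j w ∈ allLb (bd M k) := by
    intro i hi j hj w hw
    have h1 : w / M.length ≤ w := Nat.div_le_self _ _
    have h2 : w % M.length ≤ w := Nat.mod_le _ _
    unfold C pu pv bd
    split_ifs <;> rw [mem_allLb] <;> omega
  have hD : ∀ i < k, ∀ j < k, ∀ w ≤ M.length * M.length, D c i j w ∈ allLb (bd M k) := by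
    intro i hi j hj w hw
    unfold D bd
    rw [mem_allLb]
    omega
  have hs : sv ∈ allLb (bd M k) := by
    unfold sv bd; rw [mem_allLb]; omega
  have ht : tv ∈ allLb (bd M k) := by
    unfold tv bd; rw [mem_allLb]; omega
  rw [mem_E] at h
  obtain ⟨i, hi, j, hj, h | h | ⟨a, ha, h | h⟩ | ⟨m, hm, q, hq, h⟩⟩ := h
  · obtain ⟨rfl, rfl⟩ := Prod.mk.inj h
    exact ⟨hs, hD i hi j hj _ (Nat.zero_le _)⟩
  · obtain ⟨rfl, rfl⟩ := Prod.mk.inj h
    exact ⟨hD i hi j hj _ le_rfl, ht⟩
  · obtain ⟨rfl, rfl⟩ := Prod.mk.inj h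
    exact ⟨hD i hi j hj _ (by omega), hC i hi j hj _ ha⟩
  · obtain ⟨rfl, rfl⟩ := Prod.mk.inj h
    exact ⟨hC i hi j hj _ ha, hD i hi j hj _ ha⟩
  · obtain ⟨rfl, rfl⟩ := Prod.mk.inj h
    have hq' : q * M.length ≤ M.length * M.length := Nat.mul_le_mul_right _ (by omega)
    refine ⟨hD i hi j hj _ hq', ?_⟩
    split_ifs
    · exact hD m hm j hj _ hq'
    · exact hD i hi m hm _ hq'

/-- The instance of the dual separator problem which belongs to an instance of clique. -/
def inst (x : List (List Bool) × ℕ) : List (List ℕ) × ℕ × ℕ × ℕ :=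
  (matC (vs (bd x.1 (min x.2 (x.1.length + 1)))) (col x.1 (min x.2 (x.1.length + 1))), 0, 1,
    min x.2 (x.1.length + 1) * min x.2 (x.1.length + 1))

theorem cliqueSeq_min (M : List (List Bool)) (k : ℕ) :
    (∃ w, CliqueSeq M k w) ↔ ∃ w, CliqueSeq M (min k (M.length + 1)) w := by
  constructor
  · rintro ⟨w, h1, h2⟩
    exact ⟨w, fun i hi => h1 i (by omega), fun i hi j hj => h2 i (by omega) j (by omega)⟩
  · rintro ⟨w, h1, h2⟩
    have hk : k ≤ M.length := by
      by_contra hcon
      have hm : min k (M.length + 1) = M.length + 1 := by omega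
      rw [hm] at h1 h2
      have hinj : Function.Injective (fun i : Fin (M.length + 1) => (⟨w i, h1 i i.2⟩ :
          Fin M.length)) := by
        intro i j hij
        simp only [Fin.mk.injEq] at hij
        by_contra hne
        have := h2 i i.2 j j.2 (fun h => hne (Fin.ext h))
        simp [adjB, hij] at this
      have := Fintype.card_le_of_injective _ hinj
      simp at this
    rw [min_eq_left (by omega)] at h1 h2
    exact ⟨w, h1, h2⟩

theorem inst_iff (x : List (List Bool) × ℕ) : HasClique x ↔ DualSep (inst x) := by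
  obtain ⟨M, k₀⟩ := x
  rw [hasClique_iff]
  simp only
  rw [cliqueSeq_min]
  unfold inst DualSep
  simp only
  generalize min k₀ (M.length + 1) = k
  have hran : ∀ c < 2, ∀ x y, (Gr M k c).Adj x y → ∃ u, labC (vs (bd M k)) (col M k) u = x := by
    intro c hc x y hxy
    refine exists_labC _ (mem_vs ?_)
    obtain ⟨-, h | h⟩ := (SimpleGraph.fromRel_adj _ _ _).1 hxy
    · exact (mem_bd hc h).1
    · exact (mem_bd hc h).2
  have hlen : 2 ≤ (matC (vs (bd M k)) (col M k)).length := by
    rw [length_matC]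
    simp [vs]
  have hs : 0 < (matC (vs (bd M k)) (col M k)).length := by omega
  have ht : 1 < (matC (vs (bd M k)) (col M k)).length := by omega
  have l0 : labC (vs (bd M k)) (col M k) ⟨0, hs⟩ = sv := rfl
  have l1 : labC (vs (bd M k)) (col M k) ⟨1, ht⟩ = tv := rfl
  have key := dual_transfer (G := colG (matC (vs (bd M k)) (col M k)) 1)
    (G' := colG (matC (vs (bd M k)) (col M k)) 2) (H := Gr M k 0) (H' := Gr M k 1)
    (labC_injective (nodup_vs _) (col M k))
    (by
      intro u v
      rw [adj_matC (col_symm M k), (adj_col M k _ _).1]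
      exact and_congr_left' (not_congr (labC_injective (nodup_vs _) (col M k)).eq_iff.symm))
    (by
      intro u v
      rw [adj_matC (col_symm M k), (adj_col M k _ _).2]
      exact and_congr_left' (not_congr (labC_injective (nodup_vs _) (col M k)).eq_iff.symm))
    (hran 0 (by omega)) (hran 1 (by omega)) ⟨0, hs⟩ ⟨1, ht⟩ (k * k)
  rw [l0, l1] at key
  constructor
  · rintro ⟨w, hw⟩
    obtain ⟨S, h1, h2, h3⟩ := key.2 (complete hw)
    exact ⟨hs, ht, S, h1, h2, h3⟩
  · rintro ⟨_, _, S, h1, h2, h3⟩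
    obtain ⟨S, h1, h2, h3⟩ := key.1 ⟨S, h1, h2, h3⟩
    exact sound h1 h2 h3

/-! ### Polynomial time -/

section

variable {α : Type} [TEnc α] {M : α → List (List Bool)} {k : α → ℕ}

theorem matC_poly {Λ : Type} [TEnc Λ] {vs : α → List Λ} {cl : α → Λ → Λ → ℕ}
    (hv : Poly vs) (ha : Poly (fun x : (α × Λ) × Λ => cl x.1.1 x.1.2 x.2)) :
    Poly (fun a => matC (vs a) (cl a)) := by
  unfold matC
  refine NPC.Poly.map (F := fun a u => (vs a).map fun w => cl a u w) hv ?_
  exact NPC.Poly.map (l := fun p : α × Λ => vs p.1) (F := fun p w => cl p.1 p.2 w)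
    (hv.comp (NPC.Poly.fst NPC.Poly.id)) ha

theorem bd_u (hM : Poly M) (hk : UPoly k) : UPoly (fun a => bd (M a) (k a)) := by
  unfold bd
  have hl : UPoly (fun a => (M a).length) := UPoly.length hM
  exact ((hl.mul hl).add hk).add (UPoly.const 8)

theorem vs_poly {R : α → ℕ} (hR : UPoly R) : Poly (fun a => vs (R a)) := by
  unfold vs allLb sv tv
  have h := hR.range
  simp only [ne_eq]
  fun_prop

theorem C_poly {i j w : α → ℕ} (c : ℕ) (hM : Poly M) (hi : Poly i) (hj : Poly j) (hw : Poly w) :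
    Poly (fun a => C (M a) c (i a) (j a) (w a)) := by
  unfold C alw pu pv
  fun_prop

theorem D_poly {i j w : α → ℕ} (c : ℕ) (hi : Poly i) (hj : Poly j) (hw : Poly w) :
    Poly (fun a => D c (i a) (j a) (w a)) := by
  unfold D
  fun_prop

attribute [fun_prop] C_poly D_poly

theorem E_poly (c : ℕ) (hM : Poly M) (hk : UPoly k) : Poly (fun a => E (M a) (k a) c) := by
  unfold E sv tv
  have hl : UPoly (fun a => (M a).length) := UPoly.length hM
  have h1 := hk.range
  have h2 := (hl.mul hl).range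
  have h3 := (hl.add (UPoly.const 1)).range
  refine NPC.Poly.flatMap h1 ?_
  refine NPC.Poly.flatMap (h1.comp (NPC.Poly.fst NPC.Poly.id)) ?_
  refine NPC.Poly.append (by fun_prop) (NPC.Poly.append ?_ ?_)
  · refine NPC.Poly.flatMap (h2.comp (NPC.Poly.fst (NPC.Poly.fst NPC.Poly.id))) ?_
    fun_prop
  · refine NPC.Poly.flatMap (h1.comp (NPC.Poly.fst (NPC.Poly.fst NPC.Poly.id))) ?_
    refine NPC.Poly.map (h3.comp (NPC.Poly.fst (NPC.Poly.fst (NPC.Poly.fst NPC.Poly.id)))) ?_
    fun_prop

theorem col_poly {x y : α → Lb} (hM : Poly M) (hk : UPoly k) (hx : Poly x) (hy : Poly y) :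
    Poly (fun a => col (M a) (k a) (x a) (y a)) := by
  have h0 := E_poly 0 hM hk
  have h1 := E_poly 1 hM hk
  unfold col
  fun_prop

end

theorem kk_u : UPoly (fun x : List (List Bool) × ℕ => min x.2 (x.1.length + 1)) := by
  refine UPoly.of_le (n := fun x : List (List Bool) × ℕ => x.1.length + 1) (by fun_prop)
    ((UPoly.length (by fun_prop)).add (UPoly.const 1)) (fun x => min_le_right _ _)

theorem inst_poly : Poly inst := by
  have hk := kk_u
  have hM : Poly (fun x : List (List Bool) × ℕ => x.1) := by fun_prop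
  have h1 : Poly (fun x : List (List Bool) × ℕ =>
      matC (vs (bd x.1 (min x.2 (x.1.length + 1)))) (col x.1 (min x.2 (x.1.length + 1)))) := by
    refine matC_poly (vs_poly (bd_u hM hk)) ?_
    exact col_poly (α := ((List (List Bool) × ℕ) × Lb) × Lb) (M := fun x => x.1.1.1)
      (k := fun x => min x.1.1.2 (x.1.1.1.length + 1)) (by fun_prop)
      (hk.comp (f := fun x : ((List (List Bool) × ℕ) × Lb) × Lb => x.1.1) (by fun_prop))
      (by fun_prop) (by fun_prop)
  have h2 : Poly (fun x : List (List Bool) × ℕ =>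
      min x.2 (x.1.length + 1) * min x.2 (x.1.length + 1)) := by fun_prop
  exact NPC.Poly.pair h1 (NPC.Poly.pair (NPC.Poly.const 0) (NPC.Poly.pair (NPC.Poly.const 1) h2))

theorem w1 : W1Hard (fun x : List (List ℕ) × ℕ × ℕ × ℕ => x.2.2.2) DualSep :=
  W1Hard.of_clique ⟨inst, fun n => n * n, FptTime.of_poly inst_poly,
    mul_computable Computable.id Computable.id, fun x => ⟨inst_iff x, by
      change min x.2 (x.1.length + 1) * min x.2 (x.1.length + 1) ≤ x.2 * x.2
      exact Nat.mul_le_mul (min_le_left _ _) (min_le_left _ _)⟩⟩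

end Pool.Agent.Q322.DS
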