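import Pool.Agent.H633R2.FptDefs

/-!
# Dual separators of edge-bicolored graphs: definitions
-/

namespace Pool.Agent.Q322.DS

open Pool.Agent.NPC Pool.Agent.H633R2

/-- Entry `(i, j)` of a matrix of numbers given as a list of rows (missing entries are `0`). -/
def ent (M : List (List ℕ)) (i j : ℕ) : ℕ := (M.getD i []).getD j 0

/-- A matrix `M` of numbers describes an edge-colored simple graph on `Fin M.length`: the color of
the pair `i < j` is the entry `(i, j)`. The graph of the pairs of color `c`. Color `1` is called
blue, color `2` is called red, and the pairs of other colors are not edges. -/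
def colG (M : List (List ℕ)) (c : ℕ) : SimpleGraph (Fin M.length) where
  Adj i j := i ≠ j ∧ ent M (min i j : Fin M.length) (max i j : Fin M.length) = c
  symm := ⟨fun i j h => ⟨h.1.symm, by rw [min_comm, max_comm]; exact h.2⟩⟩
  loopless := ⟨fun _ h => h.1 rfl⟩

/-- The set `S` of vertices, which contains neither `s` nor `t`, separates `s` from `t` in the graph
`G`: they lie in different components of `G - S`. -/
def Separates {V : Type} (G : SimpleGraph V) (S : Finset V) (s t : V) : Prop :=
  ∃ (hs : s ∉ S) (ht : t ∉ S), ¬ (G.induce {v : V | v ∉ S}).Reachable ⟨s, hs⟩ ⟨t, ht⟩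

/-- Dual Separator for Two Terminals: instances `(M, s, t, k)`; is there a set `S` of at most `k`
vertices, different from `s` and `t`, which separates `s` from `t` in the blue graph and in the red
graph? -/
def DualSep (x : List (List ℕ) × ℕ × ℕ × ℕ) : Prop :=
  ∃ (hs : x.2.1 < x.1.length) (ht : x.2.2.1 < x.1.length) (S : Finset (Fin x.1.length)),
    S.card ≤ x.2.2.2 ∧ Separates (colG x.1 1) S ⟨x.2.1, hs⟩ ⟨x.2.2.1, ht⟩ ∧
      Separates (colG x.1 2) S ⟨x.2.1, hs⟩ ⟨x.2.2.1, ht⟩

end Pool.Agent.Q322.DS
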