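import Pool.Agent.Q322.DS.Side

/-!
# Dual separators and cliques
-/

namespace Pool.Agent.Q322.DS

open Pool.Agent.NPC Pool.Agent.H633R2

/-- labels of the vertices -/
abbrev Lb := ℕ × ℕ × ℕ × ℕ × ℕ

/-- the allowed values -/
def alw (M : List (List Bool)) (i j u v : ℕ) : Bool :=
  if i = j then decide (u = v) else adjB M u v

/-- first coordinate of a position -/
def pu (n c w : ℕ) : ℕ := if c = 0 then w % n else w / n

/-- second coordinate of a position -/
def pv (n c w : ℕ) : ℕ := if c = 0 then w / n else w % n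

/-- the cells -/
def C (M : List (List Bool)) (c i j w : ℕ) : Lb :=
  if alw M i j (pu M.length c w) (pv M.length c w) then
    (1, i, j, pu M.length c w, pv M.length c w) else (4 + c, i, j, w, 0)

/-- the dummies -/
def D (c i j w : ℕ) : Lb := (2 + c, i, j, w, 0)

/-- the source -/
def sv : Lb := (0, 0, 0, 0, 0)

/-- the sink -/
def tv : Lb := (0, 0, 0, 0, 1)

/-- the edges of the color `c` -/
def E (M : List (List Bool)) (k c : ℕ) : List (Lb × Lb) :=
  (List.range k).flatMap fun i => (List.range k).flatMap fun j =>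
    [(sv, D c i j 0), (D c i j (M.length * M.length), tv)] ++
    (((List.range (M.length * M.length)).flatMap fun w =>
      [(D c i j w, C M c i j w), (C M c i j w, D c i j (w + 1))]) ++
    ((List.range k).flatMap fun m => (List.range (M.length + 1)).map fun q =>
      (D c i j (q * M.length),
        if c = 0 then D c m j (q * M.length) else D c i m (q * M.length))))

theorem mem_E {M : List (List Bool)} {k c : ℕ} {e : Lb × Lb} : e ∈ E M k c ↔
    ∃ i < k, ∃ j < k, e = (sv, D c i j 0) ∨ e = (D c i j (M.length * M.length), tv) ∨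
      (∃ w < M.length * M.length, e = (D c i j w, C M c i j w) ∨
        e = (C M c i j w, D c i j (w + 1))) ∨
      ∃ m < k, ∃ q < M.length + 1, (D c i j (q * M.length),
        if c = 0 then D c m j (q * M.length) else D c i m (q * M.length)) = e := by
  unfold E
  simp only [List.mem_flatMap, List.mem_range, List.mem_append, List.mem_cons, List.not_mem_nil,
    or_false, List.mem_map, or_assoc]

/-- the graph of the color `c` -/
def Gr (M : List (List Bool)) (k c : ℕ) : SimpleGraph Lb :=
  SimpleGraph.fromRel fun x y => (x, y) ∈ E M k c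

/-- the variable to which a vertex belongs -/
def own (x : Lb) : ℕ × ℕ := (x.2.1, x.2.2.1)

theorem own_C (M : List (List Bool)) (c i j w : ℕ) : own (C M c i j w) = (i, j) := by
  unfold C own
  split_ifs <;> rfl

theorem own_D (c i j w : ℕ) : own (D c i j w) = (i, j) := rfl

theorem Cne (M : List (List Bool)) {c c' i j w : ℕ} (hc : c < 2) (hc' : c' < 2) :
    (C M c i j w).1 ≠ 0 ∧ (C M c i j w).1 ≠ 2 + c' := by
  unfold C
  split_ifs
  · simp only; omega
  · simp only; omega

theorem D_ne_C (M : List (List Bool)) {c i j w i' j' w' : ℕ} (hc : c < 2) :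
    D c i j w ≠ C M c i' j' w' := by
  intro h
  have h1 := congrArg (fun x : Lb => x.1) h
  exact (Cne M hc hc).2 h1.symm

theorem C_inj {M : List (List Bool)} {c i j w w' : ℕ} (h : C M c i j w = C M c i j w') :
    w = w' := by
  have h1 := congrArg (fun x : Lb => x.1) h
  have h2 := congrArg (fun x : Lb => x.2.2.2.1) h
  have h3 := congrArg (fun x : Lb => x.2.2.2.2) h
  unfold C pu pv at h1 h2 h3
  have e1 := Nat.div_add_mod w M.length
  have e2 := Nat.div_add_mod w' M.length
  split_ifs at h1 h2 h3 <;> simp only at h1 h2 h3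
  · rw [← e1, ← e2, h2, h3]
  · omega
  · omega
  · exact h2
  · rw [← e1, ← e2, h2, h3]
  · omega
  · omega
  · exact h2

theorem D_inj {c i j w w' : ℕ} (h : D c i j w = D c i j w') : w = w' :=
  congrArg (fun x : Lb => x.2.2.2.1) h

section

variable {M : List (List Bool)} {k c : ℕ} {S : Finset Lb} {A : Lb → Prop}

/-- The sides are constant along edges outside of the separator. -/
def Sid (M : List (List Bool)) (k c : ℕ) (S : Finset Lb) (A : Lb → Prop) : Prop :=
  A sv ∧ ¬ A tv ∧ sv ∉ S ∧ tv ∉ S ∧ ∀ x y, (x, y) ∈ E M k c → x ∉ S → y ∉ S → (A x ↔ A y)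

theorem sid_of (h : Separates (Gr M k c) S sv tv) : ∃ A, Sid M k c S A := by
  rw [separates_iff] at h
  obtain ⟨hs, ht, A, hAs, hAt, hA⟩ := h
  refine ⟨A, hAs, hAt, hs, ht, fun x y hxy hx hy => ?_⟩
  by_cases hne : x = y
  · rw [hne]
  · have h1 : (Gr M k c).Adj x y := (SimpleGraph.fromRel_adj _ _ _).2 ⟨hne, Or.inl hxy⟩
    exact ⟨hA x y h1 hx hy, hA y x h1.symm hy hx⟩

theorem of_sid (h : Sid M k c S A) : Separates (Gr M k c) S sv tv := by
  rw [separates_iff]
  obtain ⟨hAs, hAt, hs, ht, hA⟩ := h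
  refine ⟨hs, ht, A, hAs, hAt, fun x y hxy hx hy => ?_⟩
  obtain ⟨-, h1 | h1⟩ := (SimpleGraph.fromRel_adj _ _ _).1 hxy
  · exact (hA x y h1 hx hy).1
  · exact (hA y x h1 hy hx).2

theorem edge_s {i j : ℕ} (hi : i < k) (hj : j < k) : (sv, D c i j 0) ∈ E M k c :=
  mem_E.2 ⟨i, hi, j, hj, Or.inl rfl⟩

theorem edge_t {i j : ℕ} (hi : i < k) (hj : j < k) :
    (D c i j (M.length * M.length), tv) ∈ E M k c :=
  mem_E.2 ⟨i, hi, j, hj, Or.inr (Or.inl rfl)⟩

theorem edge_1 {i j w : ℕ} (hi : i < k) (hj : j < k) (hw : w < M.length * M.length) :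
    (D c i j w, C M c i j w) ∈ E M k c :=
  mem_E.2 ⟨i, hi, j, hj, Or.inr (Or.inr (Or.inl ⟨w, hw, Or.inl rfl⟩))⟩

theorem edge_2 {i j w : ℕ} (hi : i < k) (hj : j < k) (hw : w < M.length * M.length) :
    (C M c i j w, D c i j (w + 1)) ∈ E M k c :=
  mem_E.2 ⟨i, hi, j, hj, Or.inr (Or.inr (Or.inl ⟨w, hw, Or.inr rfl⟩))⟩

/-- the vertices of a path -/
def onP (M : List (List Bool)) (c i j : ℕ) (x : Lb) : Prop :=
  (∃ w ≤ M.length * M.length, x = D c i j w) ∨ ∃ w < M.length * M.length, x = C M c i j w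

theorem own_onP {i j : ℕ} {x : Lb} (h : onP M c i j x) : own x = (i, j) := by
  rcases h with ⟨w, -, rfl⟩ | ⟨w, -, rfl⟩
  · rfl
  · exact own_C _ _ _ _ _

theorem hit (h : Sid M k c S A) {i j : ℕ} (hi : i < k) (hj : j < k) : ∃ x ∈ S, onP M c i j x := by
  obtain ⟨hAs, hAt, hs, ht, hA⟩ := h
  by_contra hcon
  push Not at hcon
  have hD : ∀ w ≤ M.length * M.length, D c i j w ∉ S := fun w hw h =>
    hcon _ h (Or.inl ⟨w, hw, rfl⟩)
  have hC : ∀ w < M.length * M.length, C M c i j w ∉ S := fun w hw h =>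
    hcon _ h (Or.inr ⟨w, hw, rfl⟩)
  have key : ∀ w ≤ M.length * M.length, A (D c i j w) := by
    intro w
    induction w with
    | zero => intro _; exact (hA _ _ (edge_s hi hj) hs (hD 0 (Nat.zero_le _))).1 hAs
    | succ w ih =>
      intro hw
      have h1 := (hA _ _ (edge_1 hi hj (by omega)) (hD w (by omega)) (hC w (by omega))).1
        (ih (by omega))
      exact (hA _ _ (edge_2 hi hj (by omega)) (hC w (by omega)) (hD (w + 1) hw)).1 h1
  exact hAt ((hA _ _ (edge_t hi hj) (hD _ le_rfl) ht).1 (key _ le_rfl))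

theorem struct (h : Sid M k c S A) (hS : S.card ≤ k * k) :
    (∀ x ∈ S, ∃ i < k, ∃ j < k, onP M c i j x) ∧ (∀ x ∈ S, ∀ y ∈ S, own x = own y → x = y) := by
  classical
  have h1 : ∀ p ∈ Finset.range k ×ˢ Finset.range k, ∃ x ∈ S, onP M c p.1 p.2 x := by
    intro p hp
    rw [Finset.mem_product, Finset.mem_range, Finset.mem_range] at hp
    exact hit h hp.1 hp.2
  choose! f hf hf' using h1
  have hinj : Set.InjOn f (Finset.range k ×ˢ Finset.range k : Finset (ℕ × ℕ)) := by
    intro p hp q hq hpq
    have e1 := own_onP (hf' p hp)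
    have e2 := own_onP (hf' q hq)
    rw [hpq, e2] at e1
    exact e1.symm
  have h2 : (Finset.range k ×ˢ Finset.range k).image f = S := by
    refine Finset.eq_of_subset_of_card_le ?_ ?_
    · intro x hx
      obtain ⟨p, hp, rfl⟩ := Finset.mem_image.1 hx
      exact hf p hp
    · rw [Finset.card_image_of_injOn hinj, Finset.card_product, Finset.card_range]
      exact hS
  constructor
  · intro x hx
    rw [← h2] at hx
    obtain ⟨p, hp, rfl⟩ := Finset.mem_image.1 hx
    have hp' := hp
    rw [Finset.mem_product, Finset.mem_range, Finset.mem_range] at hp'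
    exact ⟨p.1, hp'.1, p.2, hp'.2, hf' p hp⟩
  · intro x hx y hy hxy
    rw [← h2] at hx hy
    obtain ⟨p, hp, rfl⟩ := Finset.mem_image.1 hx
    obtain ⟨q, hq, rfl⟩ := Finset.mem_image.1 hy
    rw [own_onP (hf' p hp), own_onP (hf' q hq)] at hxy
    rw [show p = q from hxy]

theorem sides (hc : c < 2) (h : Sid M k c S A) (h1 : ∀ x ∈ S, ∀ y ∈ S, own x = own y → x = y)
    {i j w₀ : ℕ} (hi : i < k) (hj : j < k) (hw₀ : w₀ < M.length * M.length)
    (hS : C M c i j w₀ ∈ S) : (∀ w ≤ M.length * M.length, D c i j w ∉ S) ∧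
    ∀ w ≤ M.length * M.length, A (D c i j w) ↔ w ≤ w₀ := by
  obtain ⟨hAs, hAt, hs, ht, hA⟩ := h
  have hD : ∀ w, D c i j w ∉ S := by
    intro w hw
    refine D_ne_C M hc (h1 _ hw _ hS ?_)
    rw [own_C, own_D]
  have hC : ∀ w, w ≠ w₀ → C M c i j w ∉ S := by
    intro w hne hw
    exact hne (C_inj (h1 _ hw _ hS (by rw [own_C, own_C])))
  have step : ∀ w < M.length * M.length, w ≠ w₀ → (A (D c i j w) ↔ A (D c i j (w + 1))) := by
    intro w hw hne
    exact (hA _ _ (edge_1 hi hj hw) (hD w) (hC w hne)).trans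
      (hA _ _ (edge_2 hi hj hw) (hC w hne) (hD (w + 1)))
  have up : ∀ w ≤ w₀, A (D c i j w) := by
    intro w
    induction w with
    | zero => intro _; exact (hA _ _ (edge_s hi hj) hs (hD 0)).1 hAs
    | succ w ih =>
      intro hw
      exact (step w (by omega) (by omega)).1 (ih (by omega))
  have down : ∀ d, w₀ + 1 + d ≤ M.length * M.length → A (D c i j (w₀ + 1 + d)) →
      A (D c i j (M.length * M.length)) := by
    intro d hd ha
    obtain ⟨e, he⟩ : ∃ e, M.length * M.length = w₀ + 1 + d + e := ⟨_, (Nat.add_sub_of_le hd).symm⟩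
    induction e generalizing d with
    | zero => rw [he]; exact ha
    | succ e ih =>
      refine ih (d + 1) (by omega) ?_ (by omega)
      have := (step (w₀ + 1 + d) (by omega) (by omega)).1 ha
      rw [show w₀ + 1 + (d + 1) = w₀ + 1 + d + 1 by omega]
      exact this
  refine ⟨fun w _ => hD w, fun w hw => ⟨fun ha => ?_, up w⟩⟩
  by_contra hlt
  push Not at hlt
  obtain ⟨d, rfl⟩ : ∃ d, w = w₀ + 1 + d := ⟨w - (w₀ + 1), by omega⟩
  exact hAt ((hA _ _ (edge_t hi hj) (hD _) ht).1 (down d hw ha))

end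

theorem div_eq_of {n a b : ℕ} (ha : a < n * n) (hb : b < n * n)
    (h : ∀ q < n + 1, (q * n ≤ a ↔ q * n ≤ b)) : a / n = b / n := by
  have hn : 0 < n := by
    rcases Nat.eq_zero_or_pos n with h0 | h0
    · rw [h0] at ha; omega
    · exact h0
  have key : ∀ {a b : ℕ}, a < n * n → (∀ q < n + 1, (q * n ≤ a → q * n ≤ b)) →
      a / n ≤ b / n := by
    intro a b ha h
    rw [Nat.le_div_iff_mul_le hn]
    refine h _ ?_ (Nat.div_mul_le_self a n)
    have : a / n < n := Nat.div_lt_of_lt_mul ha
    omega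
  exact le_antisymm (key ha fun q hq => (h q hq).1) (key hb fun q hq => (h q hq).2)

theorem sound {M : List (List Bool)} {k : ℕ} {S : Finset Lb} (hS : S.card ≤ k * k)
    (h0 : Separates (Gr M k 0) S sv tv) (h1 : Separates (Gr M k 1) S sv tv) :
    ∃ w, CliqueSeq M k w := by
  obtain ⟨A, hA⟩ := sid_of h0
  obtain ⟨B, hB⟩ := sid_of h1
  obtain ⟨sA, uA⟩ := struct hA hS
  obtain ⟨sB, -⟩ := struct hB hS
  have hex : ∀ i < k, ∀ j < k, ∃ u v, u < M.length ∧ v < M.length ∧ alw M i j u v = true ∧
      (1, i, j, u, v) ∈ S := by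
    intro i hi j hj
    obtain ⟨x, hx, hxA⟩ := hit hA hi hj
    obtain ⟨i', hi', j', hj', hxB⟩ := sB x hx
    rcases hxA with ⟨w, hw, rfl⟩ | ⟨w, hw, rfl⟩
    · exfalso
      rcases hxB with ⟨w', hw', h⟩ | ⟨w', hw', h⟩
      · have := congrArg (fun x : Lb => x.1) h
        simp [D] at this
      · have := congrArg (fun x : Lb => x.1) h
        exact (Cne M (c := 1) (c' := 0) (by omega) (by omega)).2 this.symm
    · have hn : 0 < M.length := by
        rcases Nat.eq_zero_or_pos M.length with h0 | h0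
        · rw [h0] at hw; omega
        · exact h0
      by_cases ha : alw M i j (w % M.length) (w / M.length) = true
      · refine ⟨_, _, Nat.mod_lt _ hn, Nat.div_lt_of_lt_mul hw, ha, ?_⟩
        have : C M 0 i j w = (1, i, j, w % M.length, w / M.length) := by
          unfold C pu pv
          rw [if_pos (by simpa using ha)]
          simp
        rw [← this]
        exact hx
      · exfalso
        have e1 : C M 0 i j w = (4, i, j, w, 0) := by
          unfold C pu pv
          rw [if_neg (by simpa using ha)]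
        rw [e1] at hxB
        rcases hxB with ⟨w', hw', h⟩ | ⟨w', hw', h⟩
        · have := congrArg (fun x : Lb => x.1) h
          simp [D] at this
        · have := congrArg (fun x : Lb => x.1) h
          unfold C at this
          split_ifs at this <;> simp at this
  choose! u v hu hv hal hmem using hex
  have hdm : ∀ a b, b < M.length → (a * M.length + b) / M.length = a ∧
      (a * M.length + b) % M.length = b := by
    intro a b hb
    constructor
    · rw [Nat.mul_comm, Nat.mul_add_div (by omega), Nat.div_eq_of_lt hb, Nat.add_zero]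
    · rw [Nat.mul_comm, Nat.mul_add_mod, Nat.mod_eq_of_lt hb]
  have hlt : ∀ a b, a < M.length → b < M.length → a * M.length + b < M.length * M.length := by
    intro a b ha hb
    have : (a + 1) * M.length ≤ M.length * M.length := Nat.mul_le_mul_right _ ha
    nlinarith
  have hC0 : ∀ i < k, ∀ j < k, C M 0 i j (v i j * M.length + u i j) ∈ S := by
    intro i hi j hj
    obtain ⟨a1, a2⟩ := hdm (v i j) (u i j) (hu i hi j hj)
    unfold C pu pv
    simp only [if_true]
    rw [a1, a2, if_pos (hal i hi j hj)]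
    exact hmem i hi j hj
  have hC1 : ∀ i < k, ∀ j < k, C M 1 i j (u i j * M.length + v i j) ∈ S := by
    intro i hi j hj
    obtain ⟨a1, a2⟩ := hdm (u i j) (v i j) (hv i hi j hj)
    unfold C pu pv
    simp only [one_ne_zero, if_false]
    rw [a1, a2, if_pos (hal i hi j hj)]
    exact hmem i hi j hj
  have hvv : ∀ i < k, ∀ j < k, ∀ m < k, v i j = v m j := by
    intro i hi j hj m hm
    obtain ⟨p1, p2⟩ := sides (by omega) hA uA hi hj
      (hlt _ _ (hv i hi j hj) (hu i hi j hj)) (hC0 i hi j hj)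
    obtain ⟨q1, q2⟩ := sides (by omega) hA uA hm hj
      (hlt _ _ (hv m hm j hj) (hu m hm j hj)) (hC0 m hm j hj)
    have h3 := div_eq_of (hlt _ _ (hv i hi j hj) (hu i hi j hj))
      (hlt _ _ (hv m hm j hj) (hu m hm j hj)) (fun q hq => by
        have hq' : q * M.length ≤ M.length * M.length := Nat.mul_le_mul_right _ (by omega)
        rw [← p2 _ hq', ← q2 _ hq']
        refine hA.2.2.2.2 _ _ (mem_E.2 ⟨i, hi, j, hj, Or.inr (Or.inr (Or.inr ⟨m, hm, q, hq,
          ?_⟩))⟩) (p1 _ hq') (q1 _ hq')
        simp)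
    rwa [(hdm _ _ (hu i hi j hj)).1, (hdm _ _ (hu m hm j hj)).1] at h3
  have huu : ∀ i < k, ∀ j < k, ∀ m < k, u i j = u i m := by
    intro i hi j hj m hm
    obtain ⟨p1, p2⟩ := sides (by omega) hB uA hi hj
      (hlt _ _ (hu i hi j hj) (hv i hi j hj)) (hC1 i hi j hj)
    obtain ⟨q1, q2⟩ := sides (by omega) hB uA hi hm
      (hlt _ _ (hu i hi m hm) (hv i hi m hm)) (hC1 i hi m hm)
    have h3 := div_eq_of (hlt _ _ (hu i hi j hj) (hv i hi j hj))
      (hlt _ _ (hu i hi m hm) (hv i hi m hm)) (fun q hq => by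
        have hq' : q * M.length ≤ M.length * M.length := Nat.mul_le_mul_right _ (by omega)
        rw [← p2 _ hq', ← q2 _ hq']
        refine hB.2.2.2.2 _ _ (mem_E.2 ⟨i, hi, j, hj, Or.inr (Or.inr (Or.inr ⟨m, hm, q, hq,
          ?_⟩))⟩) (p1 _ hq') (q1 _ hq')
        simp)
    rwa [(hdm _ _ (hv i hi j hj)).1, (hdm _ _ (hv i hi m hm)).1] at h3
  refine ⟨fun i => u i i, fun i hi => hu i hi i hi, fun i hi j hj hij => ?_⟩
  have h3 := hal i hi j hj
  unfold alw at h3
  rw [if_neg hij] at h3
  have h4 := hal j hj j hj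
  unfold alw at h4
  rw [if_pos rfl, decide_eq_true_iff] at h4
  simp only
  rw [huu i hi i hi j hj, h4, ← hvv i hi j hj j hj]
  exact h3

/-- the side function of a clique -/
def side (n : ℕ) (w : ℕ → ℕ) (c : ℕ) (x : Lb) : Prop :=
  if x.1 = 0 then x.2.2.2.2 = 0 else
  if x.1 = 1 then (if c = 0 then x.2.2.2.2 * n + x.2.2.2.1 else x.2.2.2.1 * n + x.2.2.2.2) <
    (if c = 0 then w x.2.2.1 * n + w x.2.1 else w x.2.1 * n + w x.2.2.1) else
  if x.1 < 4 then x.2.2.2.1 ≤ (if c = 0 then w x.2.2.1 * n + w x.2.1 else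
    w x.2.1 * n + w x.2.2.1) else
  x.2.2.2.1 < (if c = 0 then w x.2.2.1 * n + w x.2.1 else w x.2.1 * n + w x.2.2.1)

/-- the chosen position -/
def cp (n : ℕ) (w : ℕ → ℕ) (c i j : ℕ) : ℕ := if c = 0 then w j * n + w i else w i * n + w j

theorem side_D {n : ℕ} {w : ℕ → ℕ} {c i j a : ℕ} (hc : c < 2) :
    side n w c (D c i j a) ↔ a ≤ cp n w c i j := by
  unfold side D cp
  simp only [show 2 + c ≠ 0 by omega, show 2 + c ≠ 1 by omega, show 2 + c < 4 by omega,
    if_false, if_true]

theorem side_C {M : List (List Bool)} {w : ℕ → ℕ} {c i j a : ℕ} :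
    side M.length w c (C M c i j a) ↔ a < cp M.length w c i j := by
  have e1 := Nat.div_add_mod' a M.length
  by_cases h : alw M i j (pu M.length c a) (pv M.length c a) = true
  · have e2 : C M c i j a = (1, i, j, pu M.length c a, pv M.length c a) := if_pos h
    have e3 : (if c = 0 then pv M.length c a * M.length + pu M.length c a else
        pu M.length c a * M.length + pv M.length c a) = a := by
      unfold pu pv
      split_ifs <;> exact e1
    rw [e2]
    unfold side cp
    simp only [one_ne_zero, if_false, if_true]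
    rw [e3]
  · have e2 : C M c i j a = (4 + c, i, j, a, 0) := if_neg h
    rw [e2]
    unfold side cp
    simp only [show 4 + c ≠ 0 by omega, show 4 + c ≠ 1 by omega, show ¬ (4 + c < 4) by omega,
      if_false]

theorem complete {M : List (List Bool)} {k : ℕ} {w : ℕ → ℕ} (hw : CliqueSeq M k w) :
    ∃ S : Finset Lb, S.card ≤ k * k ∧ Separates (Gr M k 0) S sv tv ∧
      Separates (Gr M k 1) S sv tv := by
  classical
  obtain ⟨hw1, hw2⟩ := hw
  let n := M.length
  let S : Finset Lb := (Finset.range k ×ˢ Finset.range k).image fun p =>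
    (1, p.1, p.2, w p.1, w p.2)
  have hlt : ∀ a b, a < n → b < n → a * n + b < n * n := by
    intro a b ha hb
    have : (a + 1) * n ≤ n * n := Nat.mul_le_mul_right _ ha
    nlinarith
  have hcp : ∀ c i j, i < k → j < k → cp n w c i j < n * n := by
    intro c i j hi hj
    unfold cp
    split_ifs
    · exact hlt _ _ (hw1 j hj) (hw1 i hi)
    · exact hlt _ _ (hw1 i hi) (hw1 j hj)
  have hdm : ∀ a b, b < n → (a * n + b) / n = a ∧ (a * n + b) % n = b := by
    intro a b hb
    constructor
    · rw [Nat.mul_comm, Nat.mul_add_div (by omega), Nat.div_eq_of_lt hb, Nat.add_zero]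
    · rw [Nat.mul_comm, Nat.mul_add_mod, Nat.mod_eq_of_lt hb]
  have hmem : ∀ c < 2, ∀ i < k, ∀ j < k, C M c i j (cp n w c i j) ∈ S := by
    intro c hc i hi j hj
    have hal : alw M i j (w i) (w j) = true := by
      unfold alw
      split_ifs with hij
      · rw [hij]; simp
      · exact hw2 i hi j hj hij
    have e : C M c i j (cp n w c i j) = (1, i, j, w i, w j) := by
      obtain ⟨a1, a2⟩ := hdm (w j) (w i) (hw1 i hi)
      obtain ⟨b1, b2⟩ := hdm (w i) (w j) (hw1 j hj)
      have ep : pu M.length c (cp n w c i j) = w i := by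
        unfold pu cp
        split_ifs
        · exact a2
        · exact b1
      have eq : pv M.length c (cp n w c i j) = w j := by
        unfold pv cp
        split_ifs
        · exact a1
        · exact b2
      unfold C
      rw [ep, eq, if_pos hal]
    rw [e]
    exact Finset.mem_image.2 ⟨(i, j), by simp [hi, hj], rfl⟩
  have hside : ∀ c < 2, Sid M k c S (side n w c) := by
    intro c hc
    refine ⟨by simp [side, sv], by simp [side, tv], ?_, ?_, ?_⟩
    · intro h
      obtain ⟨p, -, h⟩ := Finset.mem_image.1 h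
      simp [sv] at h
    · intro h
      obtain ⟨p, -, h⟩ := Finset.mem_image.1 h
      simp [tv] at h
    · intro x y hxy hx hy
      rw [mem_E] at hxy
      obtain ⟨i, hi, j, hj, h | h | ⟨a, ha, h | h⟩ | ⟨m, hm, q, hq, h⟩⟩ := hxy
      · obtain ⟨rfl, rfl⟩ := Prod.mk.inj h
        rw [side_D hc]
        simp [side, sv]
      · obtain ⟨rfl, rfl⟩ := Prod.mk.inj h
        rw [side_D hc]
        have := hcp c i j hi hj
        simp only [side, tv, if_true, one_ne_zero, iff_false, not_le]
        exact this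
      · obtain ⟨rfl, rfl⟩ := Prod.mk.inj h
        rw [side_D hc, side_C]
        have hne : a ≠ cp n w c i j := by
          rintro rfl
          exact hy (hmem c hc i hi j hj)
        change a ≤ cp n w c i j ↔ a < cp n w c i j
        omega
      · obtain ⟨rfl, rfl⟩ := Prod.mk.inj h
        rw [side_D hc, side_C]
        change a < cp n w c i j ↔ a + 1 ≤ cp n w c i j
        omega
      · obtain ⟨rfl, rfl⟩ := Prod.mk.inj h
        have hn : ∀ a b, b < n → (q * n ≤ a * n + b ↔ q ≤ a) := by
          intro a b hb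
          rw [← Nat.le_div_iff_mul_le (by omega), (hdm a b hb).1]
        by_cases hc0 : c = 0
        · rw [if_pos hc0, side_D hc, side_D hc]
          unfold cp
          rw [if_pos hc0, if_pos hc0]
          change q * n ≤ w j * n + w i ↔ q * n ≤ w j * n + w m
          rw [hn _ _ (hw1 i hi), hn _ _ (hw1 m hm)]
        · rw [if_neg hc0, side_D hc, side_D hc]
          unfold cp
          rw [if_neg hc0, if_neg hc0]
          change q * n ≤ w i * n + w j ↔ q * n ≤ w i * n + w m
          rw [hn _ _ (hw1 j hj), hn _ _ (hw1 m hm)]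
  refine ⟨S, ?_, of_sid (hside 0 (by omega)), of_sid (hside 1 (by omega))⟩
  refine Finset.card_image_le.trans ?_
  rw [Finset.card_product, Finset.card_range]

end Pool.Agent.Q322.DS
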