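import Pool.Agent.Q322.DS.Defs
import Pool.Agent.Q322.Mat

/-!
# Separators and side functions
-/

namespace Pool.Agent.Q322.DS

open Pool.Agent.NPC Pool.Agent.H633R2

variable {V : Type}

theorem separates_iff (G : SimpleGraph V) (S : Finset V) (s t : V) :
    Separates G S s t ↔ s ∉ S ∧ t ∉ S ∧ ∃ A : V → Prop, A s ∧ ¬ A t ∧
      ∀ u v, G.Adj u v → u ∉ S → v ∉ S → A u → A v := by
  constructor
  · rintro ⟨hs, ht, h⟩
    refine ⟨hs, ht, fun v => ∃ hv : v ∉ S,
      (G.induce {v : V | v ∉ S}).Reachable ⟨s, hs⟩ ⟨v, hv⟩, ⟨hs, SimpleGraph.Reachable.refl _⟩,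
      fun ⟨_, h2⟩ => h h2, ?_⟩
    rintro u v huv hu hv ⟨_, h2⟩
    refine ⟨hv, h2.trans (SimpleGraph.Adj.reachable ?_)⟩
    exact huv
  · rintro ⟨hs, ht, A, hAs, hAt, hA⟩
    refine ⟨hs, ht, ?_⟩
    rintro ⟨p⟩
    have key : ∀ {a b : {v : V | v ∉ S}} (_ : (G.induce {v : V | v ∉ S}).Walk a b),
        A a.1 → A b.1 := by
      intro a b p
      induction p with
      | nil => exact fun h => h
      | @cons a b c hab p ih => exact fun h => ih (hA _ _ hab a.2 b.2 h)
    exact hAt (key p hAs)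

/-- Transfer to a graph with more (isolated) vertices. -/
theorem dual_transfer {W : Type} {G G' : SimpleGraph V} {H H' : SimpleGraph W} {f : V → W}
    (hf : Function.Injective f) (hadj : ∀ u v, G.Adj u v ↔ H.Adj (f u) (f v))
    (hadj' : ∀ u v, G'.Adj u v ↔ H'.Adj (f u) (f v))
    (hran : ∀ x y, H.Adj x y → ∃ u, f u = x) (hran' : ∀ x y, H'.Adj x y → ∃ u, f u = x)
    (s t : V) (k : ℕ) :
    (∃ S : Finset V, S.card ≤ k ∧ Separates G S s t ∧ Separates G' S s t) ↔
      ∃ S : Finset W, S.card ≤ k ∧ Separates H S (f s) (f t) ∧ Separates H' S (f s) (f t) := by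
  classical
  have one : ∀ {G : SimpleGraph V} {H : SimpleGraph W}
      (_ : ∀ u v, G.Adj u v ↔ H.Adj (f u) (f v)) (_ : ∀ x y, H.Adj x y → ∃ u, f u = x)
      (S : Finset V), Separates G S s t → Separates H (S.image f) (f s) (f t) := by
    intro G H hadj hran S h
    rw [separates_iff] at h ⊢
    obtain ⟨hs, ht, A, hAs, hAt, hA⟩ := h
    refine ⟨?_, ?_, fun x => ∃ u, f u = x ∧ A u, ⟨s, rfl, hAs⟩, ?_, ?_⟩
    · rw [Finset.mem_image]; rintro ⟨a, ha, h⟩; rw [hf h] at ha; exact hs ha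
    · rw [Finset.mem_image]; rintro ⟨a, ha, h⟩; rw [hf h] at ha; exact ht ha
    · rintro ⟨u, hu, hAu⟩
      rw [hf hu] at hAu
      exact hAt hAu
    · rintro x y hxy hx hy ⟨u, rfl, hAu⟩
      obtain ⟨v, rfl⟩ := hran y _ hxy.symm
      refine ⟨v, rfl, hA u v ((hadj u v).2 hxy) (fun h => hx (Finset.mem_image_of_mem f h))
        (fun h => hy (Finset.mem_image_of_mem f h)) hAu⟩
  have two : ∀ {G : SimpleGraph V} {H : SimpleGraph W}
      (_ : ∀ u v, G.Adj u v ↔ H.Adj (f u) (f v))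
      (S : Finset W), Separates H S (f s) (f t) →
        Separates G (S.preimage f hf.injOn) s t := by
    intro G H hadj S h
    rw [separates_iff] at h ⊢
    obtain ⟨hs, ht, A, hAs, hAt, hA⟩ := h
    refine ⟨?_, ?_, fun x => A (f x), hAs, hAt, ?_⟩
    · rw [Finset.mem_preimage]; exact hs
    · rw [Finset.mem_preimage]; exact ht
    · intro u v huv hu hv hAu
      rw [Finset.mem_preimage] at hu hv
      exact hA _ _ ((hadj u v).1 huv) hu hv hAu
  constructor
  · rintro ⟨S, hS, h1, h2⟩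
    exact ⟨S.image f, Finset.card_image_le.trans hS, one hadj hran S h1, one hadj' hran' S h2⟩
  · rintro ⟨S, hS, h1, h2⟩
    refine ⟨S.preimage f hf.injOn, ?_, two hadj S h1, two hadj' S h2⟩
    rw [Finset.card_preimage]
    exact (Finset.card_filter_le _ _).trans hS

end Pool.Agent.Q322.DS
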